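import Mathlib

/-!
String constraints: word equations, regular constraints and linear length constraints.
We show that some decidable (hence recursively enumerable) language is not expressible.
-/

namespace Pool.Agent.Results.MP_cb6225_lc.NotExpressible

open List

/-- A word over variables (natural numbers) and letters. -/
abbrev Term (α : Type) := List (ℕ ⊕ α)

/-- The value of a word over variables and letters under an assignment. -/
def eval {α : Type} (h : ℕ → List α) (U : Term α) : List α :=
  U.flatMap (fun s => Sum.elim h (fun a => [a]) s)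

/-- The value of the linear form `∑ c * |x|` under an assignment. -/
def linVal {α : Type} (h : ℕ → List α) (c : List (ℤ × ℕ)) : ℤ :=
  (c.map (fun p => p.1 * ((h p.2).length : ℤ))).sum

/-- Quantifier-free formulas: Boolean combinations of word equations, regular constraints
and linear equalities and inequalities over lengths of variables. -/
inductive Formula (α : Type) : Type
  | weq (U V : Term α) : Formula α
  | reg (x : ℕ) (R : Language α) (hR : R.IsRegular) : Formula α
  | lenLe (c : List (ℤ × ℕ)) (d : ℤ) : Formula α
  | lenEq (c : List (ℤ × ℕ)) (d : ℤ) : Formula α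
  | not (f : Formula α) : Formula α
  | and (f g : Formula α) : Formula α
  | or (f g : Formula α) : Formula α

/-- Satisfaction of a formula by an assignment. -/
def Sat {α : Type} (h : ℕ → List α) : Formula α → Prop
  | .weq U V => eval h U = eval h V
  | .reg x R _ => h x ∈ R
  | .lenLe c d => linVal h c ≤ d
  | .lenEq c d => linVal h c = d
  | .not f => ¬ Sat h f
  | .and f g => Sat h f ∧ Sat h g
  | .or f g => Sat h f ∨ Sat h g

/-- The language `S(f,x)` of all values of `x` in satisfying assignments of `f`. -/
def S {α : Type} (f : Formula α) (x : ℕ) : Set (List α) :=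
  {w | ∃ h : ℕ → List α, Sat h f ∧ h x = w}

section swap

variable {α : Type} [DecidableEq α]

/-- Scan from left to right and exchange the words `s` and `t`. -/
def swap (s t : List α) : ℕ → List α → List α
  | 0, w => w
  | n + 1, w =>
    if s <+: w then t ++ swap s t n (w.drop s.length)
    else if t <+: w then s ++ swap s t n (w.drop t.length)
    else match w with
      | [] => []
      | a :: w' => a :: swap s t n w'

/-- `s` crosses the boundary between `u` and `v`. -/
def Cross (s u v : List α) : Prop :=
  ∃ p q : List α, p ≠ [] ∧ q ≠ [] ∧ s = p ++ q ∧ p <:+ u ∧ q <+: v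

/-- no nonempty proper suffix of `s` is a prefix of `t` -/
def NoOv (s t : List α) : Prop :=
  ∀ p q : List α, p ≠ [] → q ≠ [] → s = p ++ q → ¬ q <+: t

structure Good (s t : List α) : Prop where
  len : s.length = t.length
  two : 2 ≤ s.length
  ss : NoOv s s
  st : NoOv s t
  ts : NoOv t s
  tt : NoOv t t
  ne : s ≠ t

variable {s t : List α}

theorem swap_nil (hg : Good s t) (n : ℕ) : swap s t n [] = [] := by
  cases n with
  | zero => rfl
  | succ n =>
    have e1 := hg.two
    have e2 := hg.len
    have h1 : ¬ s <+: ([] : List α) := by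
      intro h
      have e3 := h.length_le
      simp only [List.length_nil] at e3
      omega
    have h2 : ¬ t <+: ([] : List α) := by
      intro h
      have e3 := h.length_le
      simp only [List.length_nil] at e3
      omega
    simp only [swap, h1, h2, if_false]

theorem swap_succ (s t : List α) (n : ℕ) (w : List α) : swap s t (n + 1) w =
    if s <+: w then t ++ swap s t n (w.drop s.length)
    else if t <+: w then s ++ swap s t n (w.drop t.length)
    else match w with
      | [] => []
      | a :: w' => a :: swap s t n w' := by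
  rw [swap.eq_def]

theorem swap_stable (hg : Good s t) : ∀ (n : ℕ) (w : List α), w.length ≤ n →
    swap s t n w = swap s t w.length w := by
  intro n
  induction n using Nat.strong_induction_on with
  | _ n ih =>
    intro w hw
    cases n with
    | zero =>
      have : w = [] := List.length_eq_zero_iff.mp (by omega)
      subst this; rfl
    | succ n =>
      cases w with
      | nil => rw [swap_nil hg, swap_nil hg]
      | cons a w =>
        have hs := hg.two
        have hl := hg.len
        simp only [List.length_cons] at hw ⊢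
        simp only [swap]
        have e1 : swap s t n ((a :: w).drop s.length) = swap s t w.length ((a :: w).drop s.length) := by
          rw [ih n (by omega) _ (by simp; omega)]
          by_cases hc : w.length ≤ n
          · by_cases hlt : w.length < n + 1
            · rw [ih w.length (by omega) ((a :: w).drop s.length) (by simp; omega)]
            · omega
          · omega
        have e2 : swap s t n ((a :: w).drop t.length) = swap s t w.length ((a :: w).drop t.length) := by
          rw [ih n (by omega) _ (by simp; omega)]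
          rw [ih w.length (by omega) ((a :: w).drop t.length) (by simp; omega)]
        have e3 : swap s t n w = swap s t w.length w := ih n (by omega) w (by omega)
        rw [e1, e2, e3]

/-- The exchange map. -/
def sw (s t : List α) (w : List α) : List α := swap s t w.length w

theorem sw_nil (hg : Good s t) : sw s t [] = [] := swap_nil hg _

theorem sw_s (hg : Good s t) (w : List α) : sw s t (s ++ w) = t ++ sw s t w := by
  have hs := hg.two
  have h1 : s <+: s ++ w := List.prefix_append _ _
  unfold sw
  obtain ⟨m, hm⟩ : ∃ m, (s ++ w).length = m + 1 := ⟨(s ++ w).length - 1, by simp; omega⟩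
  rw [hm, swap_succ, if_pos h1, List.drop_left]
  rw [swap_stable hg m w (by simp at hm; omega)]

omit [DecidableEq α] in
theorem not_prefix_st (hg : Good s t) (w : List α) : ¬ s <+: t ++ w := by
  intro h
  have h2 : t <+: t ++ w := List.prefix_append _ _
  have := List.prefix_of_prefix_length_le h h2 (le_of_eq hg.len)
  exact hg.ne (this.eq_of_length hg.len)

theorem sw_t (hg : Good s t) (w : List α) : sw s t (t ++ w) = s ++ sw s t w := by
  have hs := hg.two
  have hl := hg.len
  have h1 : t <+: t ++ w := List.prefix_append _ _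
  unfold sw
  obtain ⟨m, hm⟩ : ∃ m, (t ++ w).length = m + 1 := ⟨(t ++ w).length - 1, by simp; omega⟩
  rw [hm, swap_succ, if_neg (not_prefix_st hg w), if_pos h1, List.drop_left]
  rw [swap_stable hg m w (by simp at hm; omega)]

theorem sw_cons (hg : Good s t) (a : α) (w : List α) (h1 : ¬ s <+: a :: w) (h2 : ¬ t <+: a :: w) :
    sw s t (a :: w) = a :: sw s t w := by
  unfold sw
  rw [List.length_cons, swap, if_neg h1, if_neg h2]

/-- Case analysis principle. -/
theorem sw_induction (hg : Good s t) {P : List α → Prop} (hnil : P [])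
    (hs : ∀ w, P w → P (s ++ w)) (ht : ∀ w, P w → P (t ++ w))
    (hc : ∀ a w, ¬ s <+: a :: w → ¬ t <+: a :: w → P w → P (a :: w)) : ∀ w, P w := by
  intro w
  induction hn : w.length using Nat.strong_induction_on generalizing w with
  | _ n ih =>
    have h2 := hg.two
    have hl := hg.len
    by_cases h : s <+: w
    · obtain ⟨w', rfl⟩ := h
      exact hs _ (ih w'.length (by simp at hn; omega) w' rfl)
    · by_cases h' : t <+: w
      · obtain ⟨w', rfl⟩ := h'
        exact ht _ (ih w'.length (by simp at hn; omega) w' rfl)
      · cases w with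
        | nil => exact hnil
        | cons a w =>
          exact hc a w h h' (ih w.length (by simp at hn; omega) w rfl)

theorem sw_length (hg : Good s t) (w : List α) : (sw s t w).length = w.length := by
  refine sw_induction hg (P := fun w => (sw s t w).length = w.length) ?_ ?_ ?_ ?_ w
  · rw [sw_nil hg]
  · intro w ih; rw [sw_s hg]; simp [ih, hg.len]
  · intro w ih; rw [sw_t hg]; simp [ih, hg.len]
  · intro a w h1 h2 ih; rw [sw_cons hg a w h1 h2]; simp [ih]

theorem sw_append (hg : Good s t) (u v : List α) (h1 : ¬ Cross s u v) (h2 : ¬ Cross t u v) :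
    sw s t (u ++ v) = sw s t u ++ sw s t v := by
  revert h1 h2
  refine sw_induction hg
    (P := fun u => ¬ Cross s u v → ¬ Cross t u v → sw s t (u ++ v) = sw s t u ++ sw s t v) ?_ ?_ ?_ ?_ u
  · intro _ _; simp [sw_nil hg]
  · intro w ih h1 h2
    rw [List.append_assoc, sw_s hg, sw_s hg, ih, List.append_assoc]
    · rintro ⟨p, q, hp, hq, e, hpw, hqv⟩
      exact h1 ⟨p, q, hp, hq, e, hpw.trans (List.suffix_append _ _), hqv⟩
    · rintro ⟨p, q, hp, hq, e, hpw, hqv⟩
      exact h2 ⟨p, q, hp, hq, e, hpw.trans (List.suffix_append _ _), hqv⟩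
  · intro w ih h1 h2
    rw [List.append_assoc, sw_t hg, sw_t hg, ih, List.append_assoc]
    · rintro ⟨p, q, hp, hq, e, hpw, hqv⟩
      exact h1 ⟨p, q, hp, hq, e, hpw.trans (List.suffix_append _ _), hqv⟩
    · rintro ⟨p, q, hp, hq, e, hpw, hqv⟩
      exact h2 ⟨p, q, hp, hq, e, hpw.trans (List.suffix_append _ _), hqv⟩
  · intro a w n1 n2 ih h1 h2
    have key : ∀ r : List α, ¬ r <+: a :: w → ¬ Cross r (a :: w) v → ¬ r <+: a :: (w ++ v) := by
      intro r hr hcr hp
      rw [← List.cons_append] at hp
      rcases le_or_gt r.length (a :: w).length with h | h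
      · exact hr (List.prefix_of_prefix_length_le hp (List.prefix_append _ _) h)
      · obtain ⟨q, hq⟩ := List.prefix_of_prefix_length_le (List.prefix_append (a :: w) v) hp h.le
        refine hcr ⟨a :: w, q, by simp, ?_, hq.symm, List.suffix_refl _, ?_⟩
        · rintro rfl
          rw [List.append_nil] at hq
          rw [hq] at h
          exact lt_irrefl _ h
        · rw [← hq] at hp
          exact (List.prefix_append_right_inj _).1 hp
    rw [List.cons_append, sw_cons hg a (w ++ v) (key s n1 h1) (key t n2 h2), sw_cons hg a w n1 n2,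
      List.cons_append, ih]
    · rintro ⟨p, q, hp, hq, e, hpw, hqv⟩
      exact h1 ⟨p, q, hp, hq, e, hpw.trans (List.suffix_cons _ _), hqv⟩
    · rintro ⟨p, q, hp, hq, e, hpw, hqv⟩
      exact h2 ⟨p, q, hp, hq, e, hpw.trans (List.suffix_cons _ _), hqv⟩

theorem prefix_sw (hg : Good s t) (w : List α) : ∀ y : List α, y <+: sw s t w →
    y.length < s.length → y <+: w ∨ ∃ q, q ≠ [] ∧ q <:+ y ∧ (q <+: s ∨ q <+: t) := by
  have hl := hg.len
  refine sw_induction hg (P := fun w => ∀ y : List α, y <+: sw s t w →
    y.length < s.length → y <+: w ∨ ∃ q, q ≠ [] ∧ q <:+ y ∧ (q <+: s ∨ q <+: t)) ?_ ?_ ?_ ?_ w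
  · intro y h1 _
    rw [sw_nil hg] at h1
    exact Or.inl h1
  · intro w _ y h1 h2
    rw [sw_s hg] at h1
    by_cases hy : y = []
    · subst hy; exact Or.inl List.nil_prefix
    · right
      exact ⟨y, hy, List.suffix_refl _, Or.inr
        (List.prefix_of_prefix_length_le h1 (List.prefix_append _ _) (by omega))⟩
  · intro w _ y h1 h2
    rw [sw_t hg] at h1
    by_cases hy : y = []
    · subst hy; exact Or.inl List.nil_prefix
    · right
      exact ⟨y, hy, List.suffix_refl _, Or.inl
        (List.prefix_of_prefix_length_le h1 (List.prefix_append _ _) (by omega))⟩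
  · intro a w n1 n2 ih y h1 h2
    rw [sw_cons hg a w n1 n2] at h1
    cases y with
    | nil => exact Or.inl List.nil_prefix
    | cons b y =>
      rw [List.cons_prefix_cons] at h1
      obtain ⟨rfl, h1⟩ := h1
      simp only [List.length_cons] at h2
      rcases ih y h1 (by omega) with h | ⟨q, hq, hqy, hqq⟩
      · left; rw [List.cons_prefix_cons]; exact ⟨rfl, h⟩
      · right; exact ⟨q, hq, hqy.trans (List.suffix_cons _ _), hqq⟩

theorem sw_sw (hg : Good s t) (w : List α) : sw s t (sw s t w) = w := by
  refine sw_induction hg (P := fun w => sw s t (sw s t w) = w) ?_ ?_ ?_ ?_ w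
  · rw [sw_nil hg, sw_nil hg]
  · intro w ih; rw [sw_s hg, sw_t hg, ih]
  · intro w ih; rw [sw_t hg, sw_s hg, ih]
  · intro a w n1 n2 ih
    rw [sw_cons hg a w n1 n2]
    have key : ∀ r : List α, r.length = s.length → NoOv r s → NoOv r t → ¬ r <+: a :: w →
        ¬ r <+: a :: sw s t w := by
      intro r hr o1 o2 hn hp
      cases r with
      | nil => exact hn List.nil_prefix
      | cons b r =>
        rw [List.cons_prefix_cons] at hp
        obtain ⟨rfl, hp⟩ := hp
        simp only [List.length_cons] at hr
        rcases prefix_sw hg w r hp (by omega) with h | ⟨q, hq, ⟨q', hqy⟩, hqq⟩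
        · exact hn (by rw [List.cons_prefix_cons]; exact ⟨rfl, h⟩)
        · have e : b :: r = (b :: q') ++ q := by simp [hqy]
          rcases hqq with h | h
          · exact o1 _ _ (by simp) hq e h
          · exact o2 _ _ (by simp) hq e h
    rw [sw_cons hg a _ (key s rfl hg.ss hg.st n1) (key t hg.len.symm hg.ts hg.tt n2), ih]

theorem sw_inj (hg : Good s t) {u v : List α} (h : sw s t u = sw s t v) : u = v := by
  rw [← sw_sw hg u, h, sw_sw hg v]

omit [DecidableEq α] in
/-- Only one of the words of a cross-bifix-free family can cross a boundary. -/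
theorem cross_unique {s t u v : List α} (hl : s.length = t.length) (hst : NoOv s t)
    (hts : NoOv t s) (h1 : Cross s u v) (h2 : Cross t u v) : s = t := by
  obtain ⟨p, q, hp, hq, rfl, hpu, hqv⟩ := h1
  obtain ⟨p', q', hp', hq', rfl, hpu', hqv'⟩ := h2
  simp only [List.length_append] at hl
  rcases lt_trichotomy p.length p'.length with h | h | h
  · exfalso
    obtain ⟨r, hr⟩ := List.suffix_of_suffix_length_le hpu hpu' h.le
    obtain ⟨r', hr'⟩ := List.prefix_of_prefix_length_le hqv' hqv (by omega)
    refine hts r (p ++ q') ?_ (by simp [hp]) ?_ ?_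
    · rintro rfl; simp at hr; rw [hr] at h; exact lt_irrefl _ h
    · rw [← hr, List.append_assoc]
    · rw [← hr', ← List.append_assoc]; exact List.prefix_append _ _
  · have e1 : p = p' := (List.suffix_of_suffix_length_le hpu hpu' h.le).eq_of_length h
    have e2 : q = q' := (List.prefix_of_prefix_length_le hqv hqv' (by omega)).eq_of_length (by omega)
    rw [e1, e2]
  · exfalso
    obtain ⟨r, hr⟩ := List.suffix_of_suffix_length_le hpu' hpu h.le
    obtain ⟨r', hr'⟩ := List.prefix_of_prefix_length_le hqv hqv' (by omega)
    refine hst r (p' ++ q) ?_ (by simp [hp']) ?_ ?_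
    · rintro rfl; simp at hr; rw [hr] at h; exact lt_irrefl _ h
    · rw [← hr, List.append_assoc]
    · rw [← hr', ← List.append_assoc]; exact List.prefix_append _ _

/-- Exchanging two words which act equally on the states of an automaton. -/
theorem evalFrom_sw (hg : Good s t) {σ : Type} (M : DFA α σ)
    (hM : ∀ q, M.evalFrom q s = M.evalFrom q t) (w : List α) :
    ∀ q, M.evalFrom q (sw s t w) = M.evalFrom q w := by
  refine sw_induction hg (P := fun w => ∀ q, M.evalFrom q (sw s t w) = M.evalFrom q w) ?_ ?_ ?_ ?_ w
  · intro q; rw [sw_nil hg]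
  · intro w ih q; rw [sw_s hg, DFA.evalFrom_of_append, DFA.evalFrom_of_append, ih, hM]
  · intro w ih q; rw [sw_t hg, DFA.evalFrom_of_append, DFA.evalFrom_of_append, ih, hM]
  · intro a w n1 n2 ih q; rw [sw_cons hg a w n1 n2]; simp [DFA.evalFrom_cons, ih]

/-- A cross-bifix-free family of words of one length. -/
structure Fam (C : Set (List α)) (l : ℕ) : Prop where
  two : 2 ≤ l
  len : ∀ s ∈ C, s.length = l
  ov : ∀ s ∈ C, ∀ t ∈ C, NoOv s t

omit [DecidableEq α] in
theorem Fam.good {C : Set (List α)} {l : ℕ} (hC : Fam C l) {s t : List α} (hs : s ∈ C)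
    (ht : t ∈ C) (hne : s ≠ t) : Good s t where
  len := by rw [hC.len s hs, hC.len t ht]
  two := by rw [hC.len s hs]; exact hC.two
  ss := hC.ov s hs s hs
  st := hC.ov s hs t ht
  ts := hC.ov t ht s hs
  tt := hC.ov t ht t ht
  ne := hne

omit [DecidableEq α] in
theorem eval_cons (h : ℕ → List α) (c : ℕ ⊕ α) (U : Term α) :
    eval h (c :: U) = Sum.elim h (fun a => [a]) c ++ eval h U := by
  simp [eval]

theorem sw_short (hg : Good s t) : ∀ w : List α, w.length < s.length → sw s t w = w := by
  intro w
  induction w with
  | nil => intro _; exact sw_nil hg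
  | cons a w ih =>
    intro hw
    have hl := hg.len
    have h1 : ¬ s <+: a :: w := fun h => by have := h.length_le; omega
    have h2 : ¬ t <+: a :: w := fun h => by have := h.length_le; omega
    rw [sw_cons hg a w h1 h2, ih (by simp at hw; omega)]

theorem eval_sw {C : Set (List α)} {l : ℕ} (hC : Fam C l) (h : ℕ → List α) (U : Term α) :
    ∃ Bad : Finset (List α), Bad.card ≤ U.length ∧ ∀ s ∈ C, ∀ t ∈ C, s ∉ Bad → t ∉ Bad → s ≠ t →
      eval (fun x => sw s t (h x)) U = sw s t (eval h U) := by
  induction U with
  | nil =>
    refine ⟨∅, by simp, ?_⟩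
    intro s hs t ht _ _ hne
    simp [eval, sw_nil (hC.good hs ht hne)]
  | cons c U ih =>
    obtain ⟨Bad, hB, hBad⟩ := ih
    set u := Sum.elim h (fun a => [a]) c with hu
    have hone : ∃ D : Finset (List α), D.card ≤ 1 ∧ ∀ s ∈ C, s ∉ D → ¬ Cross s u (eval h U) := by
      by_cases hex : ∃ s ∈ C, Cross s u (eval h U)
      · obtain ⟨s, hs, hcs⟩ := hex
        refine ⟨{s}, by simp, ?_⟩
        intro t ht hts hct
        refine hts ?_
        rw [Finset.mem_singleton]
        exact cross_unique (by rw [hC.len s hs, hC.len t ht]) (hC.ov t ht s hs) (hC.ov s hs t ht) hct hcs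
      · refine ⟨∅, by simp, ?_⟩
        intro s hs _ hc
        exact hex ⟨s, hs, hc⟩
    obtain ⟨D, hD, hDc⟩ := hone
    refine ⟨Bad ∪ D, (Finset.card_union_le _ _).trans (by simp; omega), ?_⟩
    intro s hs t ht hs' ht' hne
    rw [Finset.mem_union, not_or] at hs' ht'
    have hg := hC.good hs ht hne
    rw [eval_cons, eval_cons, ← hu, sw_append hg _ _ (hDc s hs hs'.2) (hDc t ht ht'.2),
      hBad s hs t ht hs'.1 ht'.1 hne]
    congr 1
    cases c with
    | inl x => simp [hu]
    | inr a =>
      simp only [hu, Sum.elim_inr]
      rw [sw_short hg]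
      have := hg.two
      simp only [List.length_singleton]
      omega

theorem sat_sw (f : Formula α) : ∃ (N : ℕ) (T : Type) (_ : Finite T) (c : List α → T),
    ∀ (C : Set (List α)) (l : ℕ), Fam C l → ∀ h : ℕ → List α, ∃ Bad : Finset (List α),
      Bad.card ≤ N ∧ ∀ s ∈ C, ∀ t ∈ C, s ∉ Bad → t ∉ Bad → s ≠ t → c s = c t →
        (Sat (fun x => sw s t (h x)) f ↔ Sat h f) := by
  induction f with
  | weq U V =>
    refine ⟨U.length + V.length, Unit, inferInstance, fun _ => (), ?_⟩
    intro C l hC h
    obtain ⟨B1, hB1, h1⟩ := eval_sw hC h U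
    obtain ⟨B2, hB2, h2⟩ := eval_sw hC h V
    refine ⟨B1 ∪ B2, (Finset.card_union_le _ _).trans (by omega), ?_⟩
    intro s hs t ht hs' ht' hne _
    rw [Finset.mem_union, not_or] at hs' ht'
    simp only [Sat]
    rw [h1 s hs t ht hs'.1 ht'.1 hne, h2 s hs t ht hs'.2 ht'.2 hne]
    exact ⟨fun e => sw_inj (hC.good hs ht hne) e, fun e => by rw [e]⟩
  | reg x R hR =>
    obtain ⟨σ, hσ, M, hM⟩ := hR
    refine ⟨0, σ → σ, inferInstance, fun w q => M.evalFrom q w, ?_⟩
    intro C l hC h
    refine ⟨∅, by simp, ?_⟩
    intro s hs t ht _ _ hne hc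
    simp only [Sat, ← hM, DFA.mem_accepts, DFA.eval,
      evalFrom_sw (hC.good hs ht hne) M (fun q => congrFun hc q)]
  | lenLe c d =>
    refine ⟨0, Unit, inferInstance, fun _ => (), ?_⟩
    intro C l hC h
    refine ⟨∅, by simp, ?_⟩
    intro s hs t ht _ _ hne _
    have e : linVal (fun x => sw s t (h x)) c = linVal h c := by
      simp [linVal, sw_length (hC.good hs ht hne)]
    simp only [Sat, e]
  | lenEq c d =>
    refine ⟨0, Unit, inferInstance, fun _ => (), ?_⟩
    intro C l hC h
    refine ⟨∅, by simp, ?_⟩
    intro s hs t ht _ _ hne _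
    have e : linVal (fun x => sw s t (h x)) c = linVal h c := by
      simp [linVal, sw_length (hC.good hs ht hne)]
    simp only [Sat, e]
  | not f ih =>
    obtain ⟨N, T, hT, c, hc⟩ := ih
    refine ⟨N, T, hT, c, ?_⟩
    intro C l hC h
    obtain ⟨Bad, hB, hBad⟩ := hc C l hC h
    refine ⟨Bad, hB, ?_⟩
    intro s hs t ht hs' ht' hne e
    simp only [Sat]
    rw [hBad s hs t ht hs' ht' hne e]
  | and f g ihf ihg =>
    obtain ⟨N, T, hT, c, hc⟩ := ihf
    obtain ⟨N', T', hT', c', hc'⟩ := ihg
    refine ⟨N + N', T × T', inferInstance, fun w => (c w, c' w), ?_⟩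
    intro C l hC h
    obtain ⟨Bad, hB, hBad⟩ := hc C l hC h
    obtain ⟨Bad', hB', hBad'⟩ := hc' C l hC h
    refine ⟨Bad ∪ Bad', (Finset.card_union_le _ _).trans (by omega), ?_⟩
    intro s hs t ht hs' ht' hne e
    rw [Finset.mem_union, not_or] at hs' ht'
    rw [Prod.mk.injEq] at e
    simp only [Sat]
    rw [hBad s hs t ht hs'.1 ht'.1 hne e.1, hBad' s hs t ht hs'.2 ht'.2 hne e.2]
  | or f g ihf ihg =>
    obtain ⟨N, T, hT, c, hc⟩ := ihf
    obtain ⟨N', T', hT', c', hc'⟩ := ihg
    refine ⟨N + N', T × T', inferInstance, fun w => (c w, c' w), ?_⟩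
    intro C l hC h
    obtain ⟨Bad, hB, hBad⟩ := hc C l hC h
    obtain ⟨Bad', hB', hBad'⟩ := hc' C l hC h
    refine ⟨Bad ∪ Bad', (Finset.card_union_le _ _).trans (by omega), ?_⟩
    intro s hs t ht hs' ht' hne e
    rw [Finset.mem_union, not_or] at hs' ht'
    rw [Prod.mk.injEq] at e
    simp only [Sat]
    rw [hBad s hs t ht hs'.1 ht'.1 hne e.1, hBad' s hs t ht hs'.2 ht'.2 hne e.2]

/-- The exchange of two words on a word of the family. -/
def ex (s t r : List α) : List α := if r = s then t else if r = t then s else r

theorem sw_flatten {C : Set (List α)} {l : ℕ} (hC : Fam C l) (hs : s ∈ C) (ht : t ∈ C)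
    (hne : s ≠ t) : ∀ L : List (List α), (∀ r ∈ L, r ∈ C) →
      sw s t L.flatten = (L.map (ex s t)).flatten := by
  have hg := hC.good hs ht hne
  intro L
  induction L with
  | nil => intro _; simpa using sw_nil hg
  | cons r L ih =>
    intro hL
    have hr : r ∈ C := hL r (by simp)
    have ih' := ih (fun x hx => hL x (by simp [hx]))
    rw [List.flatten_cons, List.map_cons, List.flatten_cons, ← ih']
    by_cases h1 : r = s
    · subst h1; rw [sw_s hg, ex, if_pos rfl]
    · by_cases h2 : r = t
      · subst h2; rw [sw_t hg, ex, if_neg h1, if_pos rfl]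
      · rw [ex, if_neg h1, if_neg h2]
        have nc : ∀ x ∈ C, ¬ Cross x r L.flatten := by
          rintro x hx ⟨p, q, hp, hq, e, ⟨z, hz⟩, _⟩
          refine hC.ov r hr x hx z p ?_ hp hz.symm ?_
          · rintro rfl
            have e1 := hC.len r hr
            have e2 := hC.len x hx
            rw [← hz] at e1
            rw [e] at e2
            have e3 : q.length ≠ 0 := fun h => hq (List.length_eq_zero_iff.mp h)
            simp only [List.length_append, List.length_nil] at e1 e2
            omega
          · rw [e]; exact List.prefix_append _ _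
        rw [sw_append hg _ _ (nc s hs) (nc t ht)]
        congr 1
        cases r with
        | nil => exact sw_nil hg
        | cons a r =>
          have n1 : ¬ s <+: a :: r := fun h => h1 (h.eq_of_length (by rw [hC.len s hs, hC.len _ hr])).symm
          have n2 : ¬ t <+: a :: r := fun h => h2 (h.eq_of_length (by rw [hC.len t ht, hC.len _ hr])).symm
          rw [sw_cons hg a r n1 n2, sw_short hg r]
          rw [hC.len s hs, ← hC.len _ hr]; simp

omit [DecidableEq α] in
theorem flatten_inj {l : ℕ} (hl : 0 < l) : ∀ L L' : List (List α), (∀ r ∈ L, r.length = l) →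
    (∀ r ∈ L', r.length = l) → L.flatten = L'.flatten → L = L' := by
  intro L
  induction L with
  | nil =>
    intro L' _ h2 e
    cases L' with
    | nil => rfl
    | cons r L' =>
      exfalso
      have h3 := h2 r (by simp)
      have h5 : (r ++ L'.flatten).length = 0 := by
        rw [← List.flatten_cons, ← e]; rfl
      rw [List.length_append] at h5
      omega
  | cons r L ih =>
    intro L' h1 h2 e
    cases L' with
    | nil =>
      exfalso
      have h3 := h1 r (by simp)
      have h5 : (r ++ L.flatten).length = 0 := by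
        rw [← List.flatten_cons, e]; rfl
      rw [List.length_append] at h5
      omega
    | cons r' L' =>
      rw [List.flatten_cons, List.flatten_cons] at e
      have h3 := h1 r (by simp)
      have h4 := h2 r' (by simp)
      obtain ⟨e1, e2⟩ := List.append_inj e (by omega)
      rw [e1, ih L' (fun x hx => h1 x (by simp [hx])) (fun x hx => h2 x (by simp [hx])) e2]

/-- The words `a^(K+2) b a^i b a^(K-i) b`. -/
def tok (a b : α) (K i : ℕ) : List α :=
  List.replicate (K + 2) a ++ (b :: (List.replicate i a ++ (b :: (List.replicate (K - i) a ++ [b]))))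

/-- The concatenation of the words `tok K 0, …, tok K (K-1)`. -/
def W (a b : α) (K : ℕ) : List α := (List.range K).flatMap (tok a b K)

omit [DecidableEq α] in
theorem tok_length (a b : α) {K i : ℕ} (h : i ≤ K) : (tok a b K i).length = 2 * K + 5 := by
  simp [tok]; omega

omit [DecidableEq α] in
theorem tok_a (a b : α) {K i m : ℕ} (h : m < K + 2) : (tok a b K i)[m]? = some a := by
  rw [tok, List.getElem?_append_left (by simpa using h)]
  simp [h]

omit [DecidableEq α] in
theorem tok_b (a b : α) (K i : ℕ) : (tok a b K i)[K + 2]? = some b := by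
  rw [tok, List.getElem?_append_right (by simp)]
  simp

omit [DecidableEq α] in
theorem tok_last (a b : α) {K i : ℕ} (h : i ≤ K) : (tok a b K i)[2 * K + 4]? = some b := by
  have e : tok a b K i = (List.replicate (K + 2) a ++ (b :: (List.replicate i a ++
      (b :: List.replicate (K - i) a)))) ++ [b] := by simp [tok]
  rw [e, List.getElem?_append_right (by simp; omega)]
  have e2 : 2 * K + 4 - (List.replicate (K + 2) a ++ (b :: (List.replicate i a ++
      (b :: List.replicate (K - i) a)))).length = 0 := by simp; omega
  rw [e2]; rfl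

omit [DecidableEq α] in
theorem tok_noOv {a b : α} (hab : a ≠ b) {K i j : ℕ} (hi : i ≤ K) (hj : j ≤ K) :
    NoOv (tok a b K i) (tok a b K j) := by
  rintro p q hp hq e ⟨r, hr⟩
  have hl := tok_length a b hi
  have hp' : 0 < p.length := List.length_pos_of_ne_nil hp
  have hq' : 0 < q.length := List.length_pos_of_ne_nil hq
  have hl2 : p.length + q.length = 2 * K + 5 := by rw [← hl, e, List.length_append]
  have hqa : ∀ m, m < q.length → m < K + 2 → q[m]? = some a := by
    intro m h1 h2
    have := tok_a a b (K := K) (i := j) h2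
    rwa [← hr, List.getElem?_append_left h1] at this
  rcases le_or_gt q.length (K + 2) with h | h
  · have h1 := hqa (q.length - 1) (by omega) (by omega)
    have h2 := tok_last a b hi
    rw [e, List.getElem?_append_right (by omega)] at h2
    have h3 : 2 * K + 4 - p.length = q.length - 1 := by omega
    rw [h3, h1] at h2
    exact hab (Option.some.inj h2)
  · have h1 := hqa (K + 2 - p.length) (by omega) (by omega)
    have h2 := tok_b a b K i
    rw [e, List.getElem?_append_right (by omega), h1] at h2
    exact hab (Option.some.inj h2)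

omit [DecidableEq α] in
theorem runs_inj {a b : α} (hab : a ≠ b) : ∀ (i j : ℕ) (X Y : List α),
    List.replicate i a ++ b :: X = List.replicate j a ++ b :: Y → i = j := by
  intro i
  induction i with
  | zero =>
    intro j X Y h
    cases j with
    | zero => rfl
    | succ j =>
      simp only [List.replicate_zero, List.nil_append, List.replicate_succ, List.cons_append,
        List.cons.injEq] at h
      exact absurd h.1.symm hab
  | succ i ih =>
    intro j X Y h
    cases j with
    | zero =>
      simp only [List.replicate_zero, List.nil_append, List.replicate_succ, List.cons_append,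
        List.cons.injEq] at h
      exact absurd h.1 hab
    | succ j =>
      simp only [List.replicate_succ, List.cons_append, List.cons.injEq, true_and] at h
      rw [ih j X Y h]

omit [DecidableEq α] in
theorem tok_inj {a b : α} (hab : a ≠ b) {K i j : ℕ} (h : tok a b K i = tok a b K j) : i = j := by
  unfold tok at h
  have h1 := (List.append_cancel_left h)
  rw [List.cons.injEq] at h1
  exact runs_inj hab _ _ _ _ h1.2

omit [DecidableEq α] in
theorem fam_tok {a b : α} (hab : a ≠ b) (K : ℕ) :
    Fam {w | ∃ i, i < K ∧ w = tok a b K i} (2 * K + 5) where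
  two := by omega
  len := by rintro s ⟨i, hi, rfl⟩; exact tok_length a b hi.le
  ov := by rintro s ⟨i, hi, rfl⟩ t ⟨j, hj, rfl⟩; exact tok_noOv hab hi.le hj.le

omit [DecidableEq α] in
theorem W_eq (a b : α) (K : ℕ) : W a b K = ((List.range K).map (tok a b K)).flatten := by
  rw [W, List.flatMap_def]

omit [DecidableEq α] in
theorem W_length (a b : α) (K : ℕ) : (W a b K).length = K * (2 * K + 5) := by
  rw [W, List.length_flatMap]
  have : (List.range K).map (fun i => (tok a b K i).length) =
      (List.range K).map (fun _ => 2 * K + 5) := by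
    apply List.map_congr_left
    intro i hi
    rw [List.mem_range] at hi
    exact tok_length a b hi.le
  rw [this]
  simp

omit [DecidableEq α] in
theorem W_inj {a b : α} {K K' : ℕ} (h : (W a b K).length = (W a b K').length) : K = K' := by
  rw [W_length, W_length] at h
  rcases lt_trichotomy K K' with h1 | h1 | h1
  · nlinarith
  · exact h1
  · nlinarith

/-- The language which is not expressible. -/
def Lang (a b : α) : Set (List α) := {w | ∃ K, w = W a b K}

theorem lang_ne {a b : α} (hab : a ≠ b) (f : Formula α) (x : ℕ) : Lang a b ≠ S f x := by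
  intro hL
  obtain ⟨N, T, hT, c, hc⟩ := sat_sw f
  have := Fintype.ofFinite T
  set K := N + Fintype.card T + 1 with hK
  have hmem : W a b K ∈ S f x := by rw [← hL]; exact ⟨K, rfl⟩
  obtain ⟨h, hsat, hx⟩ := hmem
  set C : Set (List α) := {w | ∃ i, i < K ∧ w = tok a b K i} with hCdef
  have hC : Fam C (2 * K + 5) := fam_tok hab K
  obtain ⟨Bad, hB, hBad⟩ := hc C _ hC h
  set A : Finset (List α) := (Finset.range K).image (tok a b K) with hA
  have hAc : A.card = K := by
    rw [hA, Finset.card_image_of_injective _ (fun i j e => tok_inj hab e), Finset.card_range]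
  have hAB : Fintype.card T < (A \ Bad).card := by
    have := Finset.le_card_sdiff Bad A
    omega
  obtain ⟨s, hs, t, ht, hne, hst⟩ := Finset.exists_ne_map_eq_of_card_lt_of_maps_to
    (s := A \ Bad) (t := (Finset.univ : Finset T)) (f := c) (by simpa using hAB) (by simp)
  rw [Finset.mem_sdiff] at hs ht
  have hsC : s ∈ C := by
    have := hs.1
    rw [hA, Finset.mem_image] at this
    obtain ⟨i, hi, rfl⟩ := this
    exact ⟨i, Finset.mem_range.mp hi, rfl⟩
  have htC : t ∈ C := by
    have := ht.1
    rw [hA, Finset.mem_image] at this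
    obtain ⟨i, hi, rfl⟩ := this
    exact ⟨i, Finset.mem_range.mp hi, rfl⟩
  have hsat' := (hBad s hsC t htC hs.2 ht.2 hne hst).2 hsat
  have hmem' : sw s t (W a b K) ∈ Lang a b := by
    rw [hL]; exact ⟨_, hsat', by rw [hx]⟩
  obtain ⟨K', hK'⟩ := hmem'
  have hlen := sw_length (hC.good hsC htC hne) (W a b K)
  rw [hK'] at hlen
  have hKK := W_inj hlen
  rw [hKK] at hK'
  have hmap : ∀ r ∈ (List.range K).map (tok a b K), r ∈ C := by
    intro r hr
    rw [List.mem_map] at hr
    obtain ⟨i, hi, rfl⟩ := hr
    exact ⟨i, List.mem_range.mp hi, rfl⟩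
  rw [W_eq, sw_flatten hC hsC htC hne _ hmap] at hK'
  have hex : ∀ r ∈ C, ex s t r ∈ C := by
    intro r hr
    unfold ex
    split_ifs
    · exact htC
    · exact hsC
    · exact hr
  have hfin := flatten_inj (l := 2 * K + 5) (by omega) _ _ (by
    intro r hr
    rw [List.mem_map] at hr
    obtain ⟨r', hr', rfl⟩ := hr
    exact hC.len _ (hex _ (hmap _ hr'))) (fun r hr => hC.len _ (hmap r hr)) hK'
  have hfix : ex s t s = s := by
    have h1 : ∀ r ∈ (List.range K).map (tok a b K), ex s t r = r := by
      have : (List.map (tok a b K) (List.range K)).map (ex s t) =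
          (List.map (tok a b K) (List.range K)).map id := by rw [hfin, List.map_id]
      exact fun r hr => List.map_inj_left.mp this r hr
    refine h1 s ?_
    obtain ⟨i, hi, rfl⟩ := hsC
    rw [List.mem_map]
    exact ⟨i, List.mem_range.mpr hi, rfl⟩
  rw [ex, if_pos rfl] at hfix
  exact hne hfix.symm

end swap

section comp

variable {α : Type} [Primcodable α] [DecidableEq α]

omit [Primcodable α] [DecidableEq α] in
theorem tok_eq (a b : α) (K i : ℕ) : tok a b K i =
    (List.range (K + 2)).map (fun _ => a) ++ (b :: ((List.range i).map (fun _ => a) ++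
      (b :: ((List.range (K - i)).map (fun _ => a) ++ [b])))) := by
  simp [tok]

theorem primrec_tok (a b : α) : Primrec₂ (tok a b) := by
  have hr : Primrec (fun n : ℕ => (List.range n).map (fun _ => a)) :=
    Primrec.list_map Primrec.list_range (Primrec.const a).to₂
  have h1 : Primrec₂ (fun K _ : ℕ => (List.range (K + 2)).map (fun _ => a)) :=
    (hr.comp (Primrec.nat_add.comp Primrec.fst (Primrec.const 2))).to₂
  have h2 : Primrec₂ (fun _ i : ℕ => (List.range i).map (fun _ => a)) :=
    (hr.comp Primrec.snd).to₂
  have h3 : Primrec₂ (fun K i : ℕ => (List.range (K - i)).map (fun _ => a)) :=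
    (hr.comp (Primrec.nat_sub.comp Primrec.fst Primrec.snd)).to₂
  have h4 : Primrec₂ (fun K i : ℕ => (List.range (K + 2)).map (fun _ => a) ++
      (b :: ((List.range i).map (fun _ => a) ++
      (b :: ((List.range (K - i)).map (fun _ => a) ++ [b]))))) :=
    Primrec.list_append.comp₂ h1 (Primrec.list_cons.comp₂ (Primrec₂.const b)
      (Primrec.list_append.comp₂ h2 (Primrec.list_cons.comp₂ (Primrec₂.const b)
        (Primrec.list_append.comp₂ h3 (Primrec₂.const [b])))))
  exact h4.of_eq (fun K i => (tok_eq a b K i).symm)

theorem primrec_W (a b : α) : Primrec (W a b) :=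
  Primrec.list_flatMap Primrec.list_range (primrec_tok a b)

theorem findIdx_run {a b : α} (hab : a ≠ b) (n : ℕ) (X : List α) :
    (List.replicate n a ++ b :: X).findIdx (fun c => decide (c ≠ a)) = n := by
  induction n with
  | zero => simp [List.findIdx_cons, hab.symm]
  | succ n ih =>
    rw [List.replicate_succ, List.cons_append, List.findIdx_cons]
    simp only [ne_eq, not_true_eq_false, decide_false, cond_false]
    rw [show (fun c => decide (¬ c = a)) = (fun c => decide (c ≠ a)) from rfl, ih]

theorem mem_lang_iff {a b : α} (hab : a ≠ b) (w : List α) :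
    w ∈ Lang a b ↔ w = W a b (w.findIdx (fun c => decide (c ≠ a)) - 2) := by
  constructor
  · rintro ⟨K, rfl⟩
    cases K with
    | zero => rfl
    | succ K =>
      have e : ∃ X, W a b (K + 1) = List.replicate (K + 1 + 2) a ++ b :: X := by
        rw [W, List.range_succ_eq_map, List.flatMap_cons, tok, List.append_assoc]
        exact ⟨_, rfl⟩
      obtain ⟨X, hX⟩ := e
      conv_rhs => rw [hX, findIdx_run hab]
      rfl
  · intro h
    exact ⟨_, h⟩

theorem lang_computable {a b : α} (hab : a ≠ b) : ComputablePred (fun w => w ∈ Lang a b) := by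
  have h1 : Primrec (fun w : List α => w.findIdx (fun c => decide (c ≠ a))) :=
    Primrec.list_findIdx Primrec.id
      ((PrimrecPred.not (Primrec.eq.comp Primrec.snd (Primrec.const a))).decide.to₂)
  have h2 : Primrec (fun w : List α => W a b (w.findIdx (fun c => decide (c ≠ a)) - 2)) :=
    (primrec_W a b).comp (Primrec.nat_sub.comp h1 (Primrec.const 2))
  have h3 : PrimrecPred (fun w : List α => w = W a b (w.findIdx (fun c => decide (c ≠ a)) - 2)) :=
    Primrec.eq.comp Primrec.id h2
  have h4 : ComputablePred (fun w : List α => w = W a b (w.findIdx (fun c => decide (c ≠ a)) - 2)) :=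
    h3.computablePred
  exact h4.of_eq (fun w => (mem_lang_iff hab w).symm)

end comp

/-- For every finite alphabet with at least two letters there is a decidable, hence recursively
enumerable, language which is different from all the languages `S f x`. -/
theorem result (k : ℕ) (hk : 2 ≤ k) : ∃ L : Set (List (Fin k)),
    REPred (fun w => w ∈ L) ∧ ComputablePred (fun w => w ∈ L) ∧
      ∀ (f : Formula (Fin k)) (x : ℕ), L ≠ S f x := by
  have hab : (⟨0, by omega⟩ : Fin k) ≠ ⟨1, by omega⟩ := by
    intro h
    simp at h
  refine ⟨Lang ⟨0, by omega⟩ ⟨1, by omega⟩, (lang_computable hab).to_re, lang_computable hab, ?_⟩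
  intro f x
  exact lang_ne hab f x

end Pool.Agent.Results.MP_cb6225_lc.NotExpressible
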